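import Pool.Agent.Q145.HC.Stm
import Pool.Agent.W66.ZC

set_option autoImplicit false

/-! # HC job MSL: mean squares of the Liouville function over short arcs, all primitive characters -/

open Complex Filter Topology Set MeasureTheory Metric
open scoped Real FourierTransform

namespace Pool.Agent.Q241.HC

open Pool.Agent.W66 Pool.Agent.W66L
open Pool.Agent.H807R2.Dav (ee)
open Pool.Agent.Q145.SZ Pool.Agent.Q145.HC

lemma mem_prim {f : ℕ} {χ : DirichletCharacter ℂ f} : χ ∈ prim f ↔ χ.IsPrimitive := by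
  classical
  unfold prim
  rw [Finset.mem_filter]
  exact ⟨fun h => h.2, fun h => ⟨Finset.mem_univ _, h⟩⟩

lemma card_prim (f : ℕ) [NeZero f] : ((prim f).card : ℝ) ≤ Nat.totient f := by
  classical
  have h2 : (prim f).card ≤ Fintype.card (DirichletCharacter ℂ f) := Finset.card_le_univ _
  have h3 : Fintype.card (DirichletCharacter ℂ f) = Nat.totient f := by
    rw [← Nat.card_eq_fintype_card,
      DirichletCharacter.card_eq_totient_of_hasEnoughRootsOfUnity ℂ f]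
  rw [h3] at h2
  exact_mod_cast h2

lemma weight_sum (F : ℕ) : ∑ f ∈ Finset.Icc 1 F, ((f : ℝ) / Nat.totient f) * ((prim f).card : ℝ) ≤ (F : ℝ) ^ 2 := by
  have h1 : ∀ f ∈ Finset.Icc 1 F, ((f : ℝ) / Nat.totient f) * ((prim f).card : ℝ) ≤ F := by
    intro f hf
    rw [Finset.mem_Icc] at hf
    have : NeZero f := ⟨by omega⟩
    have h2 : (0 : ℝ) < Nat.totient f := by exact_mod_cast Nat.totient_pos.2 (by omega)
    calc _ ≤ ((f : ℝ) / Nat.totient f) * (Nat.totient f : ℝ) :=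
          mul_le_mul_of_nonneg_left (card_prim f) (by positivity)
      _ = f := by field_simp
      _ ≤ F := by exact_mod_cast hf.2
  refine (Finset.sum_le_sum h1).trans ?_
  rw [Finset.sum_const, Nat.card_Icc, nsmul_eq_mul, Nat.add_sub_cancel, sq]

/-- summation over the characters -/
lemma char_sum (F : ℕ) {a b : ℝ} (I D : (f : ℕ) → DirichletCharacter ℂ f → ℝ) (hb : 0 ≤ b)
    (hD : ∀ f ∈ Finset.Icc 1 F, ∀ χ ∈ prim f, D f χ ≤ a * I f χ + b) :
    ∑ f ∈ Finset.Icc 1 F, ((f : ℝ) / Nat.totient f) * ∑ χ ∈ prim f, D f χ ≤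
      a * (∑ f ∈ Finset.Icc 1 F, ((f : ℝ) / Nat.totient f) * ∑ χ ∈ prim f, I f χ) + b * (F : ℝ) ^ 2 := by
  have h1 : ∑ f ∈ Finset.Icc 1 F, ((f : ℝ) / Nat.totient f) * ∑ χ ∈ prim f, D f χ ≤
      a * (∑ f ∈ Finset.Icc 1 F, ((f : ℝ) / Nat.totient f) * ∑ χ ∈ prim f, I f χ) +
      b * (∑ f ∈ Finset.Icc 1 F, ((f : ℝ) / Nat.totient f) * ((prim f).card : ℝ)) := by
    rw [Finset.mul_sum, Finset.mul_sum, ← Finset.sum_add_distrib]
    apply Finset.sum_le_sum
    intro f hf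
    have h2 : ∑ χ ∈ prim f, D f χ ≤ a * (∑ χ ∈ prim f, I f χ) + b * ((prim f).card : ℝ) := by
      have h3 : b * ((prim f).card : ℝ) = ∑ _χ ∈ prim f, b := by
        rw [Finset.sum_const, nsmul_eq_mul, mul_comm]
      rw [h3, Finset.mul_sum, ← Finset.sum_add_distrib]
      exact Finset.sum_le_sum fun χ hχ => hD f hf χ hχ
    calc _ ≤ ((f : ℝ) / Nat.totient f) * (a * (∑ χ ∈ prim f, I f χ) + b * ((prim f).card : ℝ)) :=
          mul_le_mul_of_nonneg_left h2 (by positivity)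
      _ = _ := by ring
  refine h1.trans ?_
  have := mul_le_mul_of_nonneg_left (weight_sum F) hb
  linarith

lemma TG_cont (a : ℕ → ℂ) (h : ℝ) (N : ℕ) : Continuous (TG a h N) := by
  unfold TG
  apply continuous_finsetSum
  intro n _
  exact continuous_const.mul ((triC_continuous h).comp (by fun_prop))

lemma xl_norm {f : ℕ} (χ : DirichletCharacter ℂ f) (n : ℕ) : ‖xl χ n‖ ≤ 1 := by
  unfold xl lm
  rw [norm_mul, Complex.norm_real, Real.norm_eq_abs, abs_pow, abs_neg, abs_one, one_pow, mul_one]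
  exact χ.norm_le_one _

/-- eventual inequalities -/
lemma ev (A : ℕ) (C C₁ c Z1 : ℝ) (hc : 0 < c) : ∀ᶠ L : ℝ in atTop, 10 ≤ L ∧ 2 * Z1 ≤ L ∧ 4 * C₁ * √L ≤ L ∧
    64 * C₁ * Real.log L ≤ c * √L ∧ C * 2 ^ (A + 3) ≤ L ∧ 8 * C * (L ^ A * Real.exp (-(2 * √L))) ≤ 1 := by
  have hs := Real.tendsto_sqrt_atTop
  have e1 : ∀ᶠ L : ℝ in atTop, 4 * C₁ ≤ √L := hs.eventually_ge_atTop _
  have e2 : ∀ᶠ L : ℝ in atTop, 64 * C₁ * Real.log L ≤ c * √L := by
    have h1 := (isLittleO_log_rpow_atTop (r := 1 / 2) (by norm_num)).bound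
      (c := c / (64 * (|C₁| + 1))) (by positivity)
    filter_upwards [h1, eventually_ge_atTop 1] with L h2 h3
    have hl : 0 ≤ Real.log L := Real.log_nonneg h3
    rw [Real.norm_of_nonneg hl, Real.norm_of_nonneg (by positivity),
      ← Real.sqrt_eq_rpow] at h2
    have h4 : 64 * (|C₁| + 1) * Real.log L ≤ 64 * (|C₁| + 1) * (c / (64 * (|C₁| + 1)) * √L) :=
      mul_le_mul_of_nonneg_left h2 (by positivity)
    have h5 : 64 * (|C₁| + 1) * (c / (64 * (|C₁| + 1)) * √L) = c * √L := by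
      have : (0 : ℝ) < |C₁| + 1 := by positivity
      field_simp
    have h6 : 64 * C₁ * Real.log L ≤ 64 * (|C₁| + 1) * Real.log L := by
      apply mul_le_mul_of_nonneg_right _ hl
      linarith [le_abs_self C₁]
    linarith
  have e3 : ∀ᶠ L : ℝ in atTop, 8 * C * (L ^ A * Real.exp (-(2 * √L))) ≤ 1 := by
    have h1 := ((Real.tendsto_pow_mul_exp_neg_atTop_nhds_zero (2 * A)).comp hs).const_mul (8 * |C|)
    rw [mul_zero] at h1
    have h2 := h1.eventually_le_const (show (0 : ℝ) < 1 by norm_num)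
    filter_upwards [h2, eventually_ge_atTop 0] with L h3 h4
    simp only [Function.comp_apply] at h3
    rw [pow_mul, Real.sq_sqrt h4] at h3
    refine le_trans ?_ h3
    have h5 : Real.exp (-(2 * √L)) ≤ Real.exp (-√L) :=
      Real.exp_le_exp.2 (by linarith [Real.sqrt_nonneg L])
    calc 8 * C * (L ^ A * Real.exp (-(2 * √L))) ≤ 8 * |C| * (L ^ A * Real.exp (-(2 * √L))) := by
          apply mul_le_mul_of_nonneg_right _ (by positivity)
          linarith [le_abs_self C]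
      _ ≤ _ := by gcongr
  filter_upwards [e1, e2, e3, eventually_ge_atTop 10, eventually_ge_atTop (2 * Z1),
    eventually_ge_atTop (C * 2 ^ (A + 3))] with L h1 h2 h3 h4 h5 h6
  refine ⟨h4, h5, ?_, h2, h6, h3⟩
  have h8 := Real.mul_self_sqrt (show 0 ≤ L by linarith)
  calc 4 * C₁ * √L ≤ √L * √L := mul_le_mul_of_nonneg_right h1 (Real.sqrt_nonneg _)
    _ = L := h8

/-- the zero free region of the zeta function in a rectangle -/
lemma zf_one {c : ℝ} (hc : 0 < c) (hzf : ∀ ρ : ℂ, Z1 ρ = 0 → ρ.re ≤ 1 - c / ell ρ.im)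
    {w lam : ℝ} (hlam : 0 ≤ lam) (hw : w * (3 * lam + 2) < c)
    (χ : DirichletCharacter ℂ 1) : ZFL χ w (Real.exp (3 * lam)) := by
  intro s hs him hs1 h0
  rw [DirichletCharacter.LFunction_modOne_eq] at h0
  have h1 := hzf s (by rw [Z1_eq hs1, h0, mul_zero])
  have hell : ell s.im ≤ 3 * lam + 2 := by
    unfold ell
    rw [Real.log_le_iff_le_exp (by positivity)]
    have e1 : (1 : ℝ) ≤ Real.exp (3 * lam) := Real.one_le_exp (by linarith)
    have e2 : (4 : ℝ) ≤ Real.exp 2 := by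
      have h2 : Real.exp 2 = Real.exp 1 * Real.exp 1 := by rw [← Real.exp_add]; norm_num
      have h3 := Real.exp_one_gt_d9
      rw [h2]
      nlinarith
    rw [Real.exp_add]
    calc |s.im| + 3 ≤ Real.exp (3 * lam) * 4 := by linarith
      _ ≤ Real.exp (3 * lam) * Real.exp 2 := by gcongr
  have hell1 := one_le_ell s.im
  have h2 : c / (3 * lam + 2) ≤ c / ell s.im :=
    div_le_div_of_nonneg_left hc.le (by linarith) hell
  have h3 : w < c / (3 * lam + 2) := by
    rw [lt_div_iff₀ (by linarith)]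
    exact hw
  linarith

theorem t_MSL : S_MSL := by
  intro hHYB hSHL A
  obtain ⟨C₁, Z₁, hC₁, hZ₁, hH⟩ := hHYB (A + 1)
  obtain ⟨C, hC, hS⟩ := hSHL
  obtain ⟨c, hc, hc2, hzf⟩ := zf
  have hev := (Real.tendsto_log_atTop.comp tendsto_natCast_atTop_atTop).eventually
    (ev A C C₁ c Z₁ hc)
  obtain ⟨X₁, hX₁⟩ := hev.exists_forall_of_atTop
  have hcc : 0 < 640 * C₁ / c := by positivity
  refine ⟨40 * C₁ + 640 * C₁ / c + 24, max X₁ 3, by linarith,
    fun X F ω T hX hF hCF hω hω4 hCω hFT hT hZF => ?_⟩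
  have hX3 : 3 ≤ X := (le_max_right _ _).trans hX
  obtain ⟨L, hL⟩ : ∃ L, L = Real.log X := ⟨_, rfl⟩
  have hev2 := hX₁ X ((le_max_left _ _).trans hX)
  simp only [Function.comp_apply] at hev2
  rw [← hL] at hev2 hCF hCω hT
  obtain ⟨hL10, hLZ, hLs, hLl, hLC, hLe⟩ := hev2
  have hX0 : (0 : ℝ) < X := by
    have : (3 : ℝ) ≤ X := by exact_mod_cast hX3
    linarith
  have hXe : (X : ℝ) = Real.exp L := by rw [hL, Real.exp_log hX0]
  have hF1 : (1 : ℝ) ≤ F := by exact_mod_cast hF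
  have hF0 : (0 : ℝ) < F := by linarith
  have hlF : 0 ≤ Real.log F := Real.log_nonneg hF1
  have hL0 : 0 < L := by linarith
  have hsL : 0 ≤ √L := Real.sqrt_nonneg _
  have hLL : √L * √L = L := Real.mul_self_sqrt hL0.le
  have hsL3 : 3 ≤ √L := by
    rw [show (3 : ℝ) = √9 by
      rw [show (9 : ℝ) = 3 ^ 2 by norm_num, Real.sqrt_sq (by norm_num)]]
    exact Real.sqrt_le_sqrt (by linarith)
  have hlL1 : 1 ≤ Real.log L := by
    rw [Real.le_log_iff_exp_le hL0]
    linarith [Real.exp_one_lt_d9]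
  have hlL0 : 0 < Real.log L := by linarith
  -- consequences of the condition on F
  have hFd : ∀ d : ℝ, 0 ≤ d → d ≤ 40 * C₁ + 640 * C₁ / c + 24 → d * Real.log F * Real.log L ≤ L := by
    intro d hd hd2
    calc d * Real.log F * Real.log L ≤ (40 * C₁ + 640 * C₁ / c + 24) * Real.log F * Real.log L := by gcongr
      _ ≤ L := hCF
  have hFc : ∀ d : ℝ, 0 ≤ d → d ≤ 40 * C₁ + 640 * C₁ / c + 24 → d * Real.log F ≤ L := by
    intro d hd hd2
    calc d * Real.log F = d * Real.log F * 1 := by ring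
      _ ≤ d * Real.log F * Real.log L := by gcongr
      _ ≤ L := hFd d hd hd2
  -- parameters
  obtain ⟨lam, hlam⟩ : ∃ lam, lam = max (20 * Real.log F) (2 * √L) := ⟨_, rfl⟩
  have hlam1 : 20 * Real.log F ≤ lam := by rw [hlam]; exact le_max_left _ _
  have hlam2 : 2 * √L ≤ lam := by rw [hlam]; exact le_max_right _ _
  have hlam0 : 0 ≤ lam := by linarith
  obtain ⟨h, hh⟩ : ∃ h, h = Real.exp (-lam) := ⟨_, rfl⟩
  have hh0 : 0 < h := by rw [hh]; exact Real.exp_pos _
  have hh2 : h ≤ Real.exp (-(2 * √L)) := by rw [hh]; exact Real.exp_le_exp.2 (by linarith)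
  have hF5 : (F : ℝ) ^ 5 * h ≤ 1 := by
    have e1 : (F : ℝ) ^ 5 = Real.exp (5 * Real.log F) := by
      rw [show (5 : ℝ) * Real.log F = ((5 : ℕ) : ℝ) * Real.log F by norm_num, Real.exp_nat_mul,
        Real.exp_log hF0]
    rw [e1, hh, ← Real.exp_add]
    exact Real.exp_le_one_iff.2 (by linarith)
  have hlamL : C₁ * lam ≤ L / 2 := by
    rw [hlam, mul_max_of_nonneg _ _ (by linarith)]
    apply max_le
    · have := hFc (40 * C₁) (by linarith) (by linarith)
      linarith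
    · linarith
  obtain ⟨w, hw⟩ : ∃ w, w = 4 * C₁ * Real.log L / L := ⟨_, rfl⟩
  have hw0 : 0 < w := by rw [hw]; positivity
  have hwL : w * L = 4 * C₁ * Real.log L := by rw [hw]; field_simp
  have hwω : w ≤ ω := by
    rw [hw, div_le_iff₀ hL0]
    refine le_trans ?_ hCω
    gcongr
    linarith
  have hwlam : w * lam ≤ c / 8 := by
    rw [hlam, mul_max_of_nonneg _ _ hw0.le]
    apply max_le
    · have h1 := hFd (640 * C₁ / c) hcc.le (by linarith)
      have h2 : c / 8 * (640 * C₁ / c * Real.log F * Real.log L) ≤ c / 8 * L :=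
        mul_le_mul_of_nonneg_left h1 (by positivity)
      have h3 : c / 8 * (640 * C₁ / c * Real.log F * Real.log L) = w * L * (20 * Real.log F) := by
        rw [hwL]
        field_simp
        ring
      rw [h3] at h2
      have h4 : L * (w * (20 * Real.log F)) ≤ L * (c / 8) := by linarith
      exact le_of_mul_le_mul_left h4 hL0
    · have h1 : √L * (64 * C₁ * Real.log L) ≤ √L * (c * √L) := mul_le_mul_of_nonneg_left hLl hsL
      have h2 : √L * (c * √L) = c * L := by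
        calc √L * (c * √L) = c * (√L * √L) := by ring
          _ = c * L := by rw [hLL]
      have h3 : √L * (64 * C₁ * Real.log L) = 8 * (L * (w * (2 * √L))) := by
        calc √L * (64 * C₁ * Real.log L) = 16 * √L * (4 * C₁ * Real.log L) := by ring
          _ = 16 * √L * (w * L) := by rw [hwL]
          _ = _ := by ring
      have h4 : L * (w * (2 * √L)) ≤ L * (c / 8) := by linarith
      exact le_of_mul_le_mul_left h4 hL0
  have hwc : w ≤ c / 8 := by
    refine le_trans ?_ hwlam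
    exact le_mul_of_one_le_right hw0.le (by linarith)
  have hwT : w * (3 * lam + 2) < c := by
    have : w * (3 * lam + 2) = 3 * (w * lam) + 2 * w := by ring
    rw [this]
    linarith
  have hTlam : Real.exp (3 * lam) ≤ T := by
    rw [hlam]
    rcases le_total (20 * Real.log F) (2 * √L) with h1 | h1
    · rw [max_eq_right h1]
      refine le_trans (Real.exp_le_exp.2 ?_) hT
      linarith
    · rw [max_eq_left h1]
      refine le_trans (le_of_eq ?_) hFT
      rw [show (3 : ℝ) * (20 * Real.log F) = ((60 : ℕ) : ℝ) * Real.log F by push_cast; ring,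
        Real.exp_nat_mul, Real.exp_log hF0]
  -- the zero free regions
  have hZFL : ∀ (f : ℕ) [NeZero f], f ≤ F → ∀ χ : DirichletCharacter ℂ f, χ.IsPrimitive →
      ZFL χ w (Real.exp (3 * lam)) := by
    intro f hf0 hfF χ hχ
    rcases Nat.lt_or_ge 1 f with h1 | h1
    · intro s hs him _
      exact hZF f h1 hfF χ hχ s (by linarith) (him.trans hTlam)
    · have h2 : f = 1 := by
        have := hf0.out
        omega
      subst h2
      exact zf_one hc hzf hlam0 hwT χ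
  have hlogL1 : Real.log (L + 1) ≤ 2 * Real.log L := by
    have : Real.log (L + 1) ≤ Real.log (L ^ 2) := by
      apply Real.log_le_log (by linarith)
      nlinarith
    rw [Real.log_pow] at this
    exact_mod_cast this
  -- the scale `Y`
  intro Y hXY hYX n n' hn hn' hn4
  have hXYr : (X : ℝ) ≤ F * Y := by exact_mod_cast hXY
  have hYXr : (Y : ℝ) ≤ X := by exact_mod_cast hYX
  have hY0 : (0 : ℝ) < Y := by
    by_contra hcon
    have h1 : (Y : ℝ) ≤ 0 := not_lt.1 hcon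
    have h2 : (F : ℝ) * Y ≤ 0 := mul_nonpos_of_nonneg_of_nonpos hF0.le h1
    linarith
  obtain ⟨ly, hly⟩ : ∃ ly, ly = Real.log Y := ⟨_, rfl⟩
  have hYe : (Y : ℝ) = Real.exp ly := by rw [hly, Real.exp_log hY0]
  have hlyL : ly ≤ L := by rw [hly, hL]; exact Real.log_le_log hY0 hYXr
  have hly2 : L ≤ Real.log F + ly := by
    rw [hly, hL, ← Real.log_mul hF0.ne' hY0.ne']
    exact Real.log_le_log hX0 hXYr
  have hFL : 2 * Real.log F ≤ L := hFc 2 (by norm_num) (by linarith)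
  have hlyh : L / 2 ≤ ly := by linarith
  obtain ⟨N, hN⟩ : ∃ N, N = ⌈Real.exp (ly + 4)⌉₊ := ⟨_, rfl⟩
  have hN1 : Real.exp (ly + 4) ≤ N := by rw [hN]; exact Nat.le_ceil _
  -- the two windows
  have hwin : ∀ Z : ℝ, ly ≤ Z → Z ≤ ly + 1 → √Z ≤ lam ∧ C₁ * lam ≤ Z ∧ w * lam ≤ Real.log Z ∧
      C₁ * Real.log Z ≤ w * Z ∧ Real.exp (Z + 2) ≤ N ∧ Z₁ ≤ Z ∧
      1 / Z ^ (A + 1) ≤ 2 ^ (A + 1) / L ^ (A + 1) := by
    intro Z hZ1 hZ2
    have hZh : L / 2 ≤ Z := hlyh.trans hZ1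
    have hZ0 : 0 < Z := by linarith
    have hlZ : Real.log Z ≤ 2 * Real.log L :=
      (Real.log_le_log hZ0 (by linarith)).trans hlogL1
    have hlZ1 : 1 ≤ Real.log Z := by
      rw [Real.le_log_iff_exp_le hZ0]
      linarith [Real.exp_one_lt_d9]
    refine ⟨?_, by linarith, by linarith, ?_, ?_, by linarith, ?_⟩
    · refine le_trans ?_ hlam2
      rw [Real.sqrt_le_left (by positivity), mul_pow, Real.sq_sqrt hL0.le]
      linarith
    · calc C₁ * Real.log Z ≤ C₁ * (2 * Real.log L) := by gcongr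
        _ = (4 * C₁ * Real.log L) / 2 := by ring
        _ = w * (L / 2) := by rw [← hwL]; ring
        _ ≤ w * Z := by gcongr
    · exact le_trans (Real.exp_le_exp.2 (by linarith)) hN1
    · rw [div_le_div_iff₀ (by positivity) (by positivity), one_mul, ← mul_pow]
      gcongr
      linarith
  -- the mean square of `TG`
  obtain ⟨I, hI⟩ : ∃ I : (f : ℕ) → DirichletCharacter ℂ f → ℝ,
      I = fun f χ => ∫ z in ly..(ly + 2), ‖TG (xl χ) h N z‖ ^ 2 := ⟨_, rfl⟩
  have hsplit : ∀ (f : ℕ) (χ : DirichletCharacter ℂ f), I f χ =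
      (∫ z in ly..(ly + 1), ‖TG (xl χ) h N z‖ ^ 2) + ∫ z in (ly + 1)..(ly + 1 + 1), ‖TG (xl χ) h N z‖ ^ 2 := by
    intro f χ
    rw [hI]
    simp only
    have hcc : Continuous fun z => ‖TG (xl χ) h N z‖ ^ 2 := by
      have := TG_cont (xl χ) h N
      fun_prop
    rw [intervalIntegral.integral_add_adjacent_intervals (hcc.intervalIntegrable _ _)
      (hcc.intervalIntegrable _ _)]
    congr 1
    ring
  have hw4 : w ≤ 1 / 4 := hwω.trans hω4
  have hSI : ∑ f ∈ Finset.Icc 1 F, ((f : ℝ) / Nat.totient f) * ∑ χ ∈ prim f, I f χ ≤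
      2 ^ (A + 2) / L ^ (A + 1) := by
    have hw1 := hwin ly le_rfl (by linarith)
    have hw2 := hwin (ly + 1) (by linarith) le_rfl
    have hlF2 : Real.log F ≤ lam := by linarith
    have k1 := hH F ly lam h w (Real.exp (3 * lam)) hw1.2.2.2.2.2.1 hw1.1 hw1.2.1 hF hlF2 hh hw0 hw4
      hw1.2.2.1 hw1.2.2.2.1 le_rfl hZFL N hw1.2.2.2.2.1
    have k2 := hH F (ly + 1) lam h w (Real.exp (3 * lam)) hw2.2.2.2.2.2.1 hw2.1 hw2.2.1 hF hlF2 hh hw0 hw4
      hw2.2.2.1 hw2.2.2.2.1 le_rfl hZFL N hw2.2.2.2.2.1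
    have k3 := hw1.2.2.2.2.2.2
    have k4 := hw2.2.2.2.2.2.2
    have e1 : (2 : ℝ) ^ (A + 2) / L ^ (A + 1) = 2 ^ (A + 1) / L ^ (A + 1) + 2 ^ (A + 1) / L ^ (A + 1) := by
      rw [pow_succ]
      ring
    have e2 : ∑ f ∈ Finset.Icc 1 F, ((f : ℝ) / Nat.totient f) * ∑ χ ∈ prim f, I f χ =
        (∑ f ∈ Finset.Icc 1 F, ((f : ℝ) / Nat.totient f) * ∑ χ ∈ prim f, ∫ z in ly..(ly + 1), ‖TG (xl χ) h N z‖ ^ 2) +
        ∑ f ∈ Finset.Icc 1 F, ((f : ℝ) / Nat.totient f) * ∑ χ ∈ prim f, ∫ z in (ly + 1)..(ly + 1 + 1), ‖TG (xl χ) h N z‖ ^ 2 := by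
      rw [← Finset.sum_add_distrib]
      apply Finset.sum_congr rfl
      intro f _
      rw [← mul_add, ← Finset.sum_add_distrib]
      congr 1
      apply Finset.sum_congr rfl
      intro χ _
      rw [hsplit]
    rw [e1, e2]
    linarith
  -- use of SHL
  have hY3 : 3 ≤ Y := by
    have h1 := Real.add_one_le_exp ly
    rw [← hYe] at h1
    have h2 : (3 : ℝ) ≤ Y := by linarith
    exact_mod_cast h2
  have hhY : 1 ≤ h * Y := by
    rw [hh, hYe, ← Real.exp_add]
    apply Real.one_le_exp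
    have : lam ≤ C₁ * lam := le_mul_of_one_le_left hlam0 hC₁
    linarith
  have hh4 : h ≤ 1 / 4 := by
    refine hh2.trans ?_
    rw [Real.exp_neg, ← one_div]
    apply one_div_le_one_div_of_le (by norm_num)
    have := Real.add_one_le_exp (2 * √L)
    linarith
  have hFY : (F : ℝ) / Y ≤ 1 := by
    rw [div_le_one hY0, hYe, ← Real.log_le_iff_le_exp hF0]
    linarith
  have hB0 : (0 : ℝ) ≤ (F : ℝ) / Y := by positivity
  have hYB : (Y : ℝ) * ((F : ℝ) / Y) = F := by field_simp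
  have hNL : Real.exp (Real.log Y + 4) ≤ N := by rw [← hly]; exact hN1
  have hsharp : ∀ (f : ℕ) (χ : DirichletCharacter ℂ f),
      ∫ β in (-((F : ℝ) / Y))..((F : ℝ) / Y), ‖∑ u ∈ Finset.Ioc n n', xl χ u * ee (u * β)‖ ^ 2 ≤
        C * Y * I f χ + C * ((F : ℝ) / Y) * (h * Y * (1 + F)) ^ 2 := by
    intro f χ
    have h1 := hS (xl χ) Y n n' N ((F : ℝ) / Y) h (xl_norm χ) hY3 hn hn' hn4 hh0 hh4 hhY hB0 hFY hNL
    rw [hYB, ← hly] at h1
    rw [hI]
    exact h1
  have hLA : 0 < L ^ A := by positivity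
  -- the final numerical inequality
  have hfin : C * (2 ^ (A + 2) / L ^ (A + 1)) + 4 * C * Real.exp (-(2 * √L)) ≤ 1 / L ^ A := by
    rw [le_div_iff₀ hLA]
    have e1 : C * (2 ^ (A + 2) / L ^ (A + 1)) * L ^ A = C * 2 ^ (A + 2) / L := by
      rw [pow_succ L A]; field_simp
    have e2 : C * 2 ^ (A + 2) / L ≤ 1 / 2 := by
      rw [div_le_iff₀ hL0]
      have : C * 2 ^ (A + 3) = 2 * (C * 2 ^ (A + 2)) := by
        rw [pow_succ 2 (A + 2)]; ring
      linarith
    calc _ = C * (2 ^ (A + 2) / L ^ (A + 1)) * L ^ A + (8 * C * (L ^ A * Real.exp (-(2 * √L)))) / 2 := by ring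
      _ ≤ 1 / 2 + 1 / 2 := by rw [e1]; linarith
      _ = 1 := by norm_num
  rw [← hL]
  have h1 := char_sum F (a := C * Y) (b := C * ((F : ℝ) / Y) * (h * Y * (1 + F)) ^ 2) I
    (fun f χ => ∫ β in (-((F : ℝ) / Y))..((F : ℝ) / Y), ‖∑ u ∈ Finset.Ioc n n', xl χ u * ee (u * β)‖ ^ 2)
    (by positivity) (fun f _ χ _ => hsharp f χ)
  refine h1.trans ?_
  have h2 : C * Y * (∑ f ∈ Finset.Icc 1 F, ((f : ℝ) / Nat.totient f) * ∑ χ ∈ prim f, I f χ) ≤
      C * Y * (2 ^ (A + 2) / L ^ (A + 1)) := mul_le_mul_of_nonneg_left hSI (by positivity)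
  have h3 : C * ((F : ℝ) / Y) * (h * Y * (1 + F)) ^ 2 * (F : ℝ) ^ 2 ≤
      Y * (4 * C * Real.exp (-(2 * √L))) := by
    have e1 : C * ((F : ℝ) / Y) * (h * Y * (1 + F)) ^ 2 * (F : ℝ) ^ 2 =
        C * Y * ((1 + F) ^ 2 * (F : ℝ) ^ 3 * h) * h := by
      field_simp
    have e2 : (1 + (F : ℝ)) ^ 2 * (F : ℝ) ^ 3 * h ≤ 4 := by
      have e3 : (1 + (F : ℝ)) ^ 2 ≤ (2 * F) ^ 2 := by gcongr; linarith
      calc (1 + (F : ℝ)) ^ 2 * (F : ℝ) ^ 3 * h ≤ (2 * F) ^ 2 * (F : ℝ) ^ 3 * h := by gcongr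
        _ = 4 * ((F : ℝ) ^ 5 * h) := by ring
        _ ≤ 4 * 1 := by gcongr
        _ = 4 := by ring
    rw [e1]
    calc _ ≤ C * Y * 4 * Real.exp (-(2 * √L)) := by gcongr
      _ = _ := by ring
  calc _ ≤ C * Y * (2 ^ (A + 2) / L ^ (A + 1)) + Y * (4 * C * Real.exp (-(2 * √L))) := by linarith
    _ = Y * (C * (2 ^ (A + 2) / L ^ (A + 1)) + 4 * C * Real.exp (-(2 * √L))) := by ring
    _ ≤ Y * (1 / L ^ A) := mul_le_mul_of_nonneg_left hfin hY0.le
    _ = _ := by ring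

end Pool.Agent.Q241.HC
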